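import Pool.Agent.U259.GF.Fix
import Pool.Agent.U259.DP.Ker

/-!
# Characters fixed by field automorphisms decide Dade's conjecture
-/

set_option autoImplicit false
set_option linter.unusedSectionVars false

open scoped Classical BigOperators

noncomputable section

namespace Pool.Agent.U259.GF

open Pool.Agent.Y63.NV
open Pool.Agent.Y63.KR (alternatingSum chainSetoid chainStabilizer)
open Pool.Agent.Y63.AWC (IsIrreducibleCharacter)
open Pool.Agent.N20.DI (HasDef DadeInv InvC OrdC parts equiv_conj dadeInv_iff)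
open Pool.Agent.U259.WD (SBd class_main)
open Pool.Agent.U259.WP (Op1)
open Pool.Agent.N85.WM (Wr)

section rat

/-- the automorphisms which fix all roots of unity of order not divisible by `p ^ 2` -/
def Rt (p : ℕ) : Subgroup (RingAut ℂ) where
  carrier := {σ | ∀ n : ℕ, ¬ p ^ 2 ∣ n → ∀ z : ℂ, z ^ n = 1 → σ z = z}
  one_mem' := fun n _ z _ => rfl
  mul_mem' := by
    intro σ τ hσ hτ n hn z hz
    change σ (τ z) = z
    rw [hτ n hn z hz, hσ n hn z hz]
  inv_mem' := by
    intro σ hσ n hn z hz
    have h1 := hσ n hn z hz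
    change σ.symm z = z
    rw [RingEquiv.symm_apply_eq]
    exact h1.symm

theorem pow_apply_fix {σ : RingAut ℂ} {z : ℂ} (h : σ z = z) (k : ℕ) : (σ ^ k : RingAut ℂ) z = z := by
  induction k with
  | zero => rfl
  | succ k ih =>
    rw [pow_succ]
    change (σ ^ k : RingAut ℂ) (σ z) = z
    rw [h, ih]

/-- the action on the roots of unity of `p`-power order -/
theorem rt_pow {p : ℕ} [hp : Fact p.Prime] {σ : RingAut ℂ} (hσ : σ ∈ Rt p) (a : ℕ) :
    ∀ z : ℂ, z ^ p ^ (a + 1) = 1 → (σ ^ p ^ a : RingAut ℂ) z = z := by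
  induction a with
  | zero =>
    intro z hz
    rw [pow_zero, pow_one]
    refine hσ (p ^ (0 + 1)) ?_ z hz
    rw [zero_add, pow_one]
    intro h
    have h1 := Nat.le_of_dvd hp.out.pos h
    have h2 := hp.out.two_le
    nlinarith
  | succ a ih =>
    intro z hz
    have hz0 : z ≠ 0 := by
      rintro rfl
      rw [zero_pow (pow_ne_zero _ hp.out.ne_zero)] at hz
      exact zero_ne_one hz
    set τ : RingAut ℂ := σ ^ p ^ a with hτ
    have h1 : τ (z ^ p) = z ^ p := ih _ (by rw [← pow_mul, ← pow_succ']; exact hz)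
    have h2 : (τ z / z) ^ p = 1 := by
      rw [div_pow, ← map_pow, h1, div_self (pow_ne_zero p hz0)]
    have h3 : τ (τ z / z) = τ z / z := ih _ (by
      rw [pow_succ', pow_mul, h2, one_pow])
    have h4 : ∀ j : ℕ, (τ ^ j : RingAut ℂ) z = (τ z / z) ^ j * z := by
      intro j
      induction j with
      | zero => rw [pow_zero, pow_zero, one_mul]; rfl
      | succ j ihj =>
        rw [pow_succ']
        change τ ((τ ^ j : RingAut ℂ) z) = _
        rw [ihj, map_mul, map_pow, h3, pow_succ, mul_assoc, div_mul_cancel₀ _ hz0]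
    have h5 : (σ ^ p ^ (a + 1) : RingAut ℂ) = τ ^ p := by
      rw [hτ, ← pow_mul, ← pow_succ]
    rw [h5, h4, h2, one_mul]

theorem rt_adm (p : ℕ) [hp : Fact p.Prime] : Adm p p (Rt p) := by
  refine ⟨fun σ hσ m hm z hz => hσ m (fun h => hm ((dvd_pow_self p two_ne_zero).trans h)) z hz,
    fun n hn => ⟨n.factorization p, fun σ hσ z hz => ?_⟩⟩
  have hmul : p ^ n.factorization p * (n / p ^ n.factorization p) = n :=
    Nat.ordProj_mul_ordCompl_eq_self n p
  obtain ⟨u, v, huv⟩ := Pool.Agent.U259.DP.parts' (G := ℂˣ) hp.out hn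
  have hz0 : z ≠ 0 := by
    rintro rfl
    rw [zero_pow hn] at hz
    exact zero_ne_one hz
  have h0 : (Units.mk0 z hz0) ^ n = 1 := by
    apply Units.ext
    rw [Units.val_pow_eq_pow_val, Units.val_mk0, hz, Units.val_one]
  obtain ⟨e1, e2, e3⟩ := huv _ h0
  have f1 : z = z ^ u * z ^ v := by
    have := congrArg Units.val e1
    simpa using this
  have f2 : (z ^ u) ^ p ^ n.factorization p = 1 := by
    have := congrArg Units.val e2
    simpa using this
  have f3 : (z ^ v) ^ (n / p ^ n.factorization p) = 1 := by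
    have := congrArg Units.val e3
    simpa using this
  rw [f1, map_mul]
  congr 1
  · refine rt_pow hσ _ _ ?_
    rw [pow_succ, pow_mul, f2, one_pow]
  · refine pow_apply_fix ?_ _
    refine hσ (n / p ^ n.factorization p) (fun h => ?_) _ f3
    exact Nat.not_dvd_ordCompl hp.out hn ((dvd_pow_self p two_ne_zero).trans h)

end rat

variable {p q : ℕ} [hp : Fact p.Prime] [hq : Fact q.Prime] {F : Type} [Field F] [IsAlgClosed F]
  [CharP F p] (red : integralClosure ℤ ℂ →+* F)

/-- the ordinary conjecture -/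
theorem ord_iff {Γ : Subgroup (RingAut ℂ)} (h : Adm p q Γ) (X : ∀ (G : Type) [Group G], Prop)
    (hX : ∀ (G : Type) [Group G] [Finite G], X G → X (Wr q G)) :
    (∀ (G : Type) [Group G] [Finite G], X G → Op1 p G → ∀ B : (G → F) → F, IsBlock B →
      numDzBlock p red B = 0 → ∀ d, SBd p red d B = 0) ↔
    ∀ (G : Type) [Group G] [Finite G], X G → Op1 p G → ∀ B : (G → F) → F, IsBlock B →
      numDzBlock p red B = 0 → ∀ d, (q : ℤ) ∣ SG red Γ p d B := by
  constructor
  · intro h1 G _ _ hG ho B hB hz d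
    rw [← dvd_iff (q := q) red h, h1 G hG ho B hB hz d]
    exact dvd_zero _
  · intro h1 G _ _ hG _ B hB hz d
    exact class_main red q X hX (fun G _ _ hG ho B hB hz d =>
      (dvd_iff (q := q) red h d B).2 (h1 G hG ho B hB hz d)) G hG B hB hz d

/-- the invariant conjecture for cyclic extensions -/
theorem cyc_iff {Γ : Subgroup (RingAut ℂ)} (h : Adm p q Γ) :
    (∀ (E : Type) [Group E] [Finite E] (G : Subgroup E) [G.Normal], IsCyclic (E ⧸ G) →
      DadeInv p red G) ↔
    ∀ (G : Type) [Group G] [Finite G], Op1 p G → ∀ B : (G → F) → F, IsBlock B →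
      numDzBlock p red B = 0 → ∀ d, (q : ℤ) ∣ SG red Γ p d B := by
  have h1 := ord_iff red h (fun _ _ => True) fun _ _ _ _ => trivial
  have h2 := equiv_conj (p := p) (F := F) (red := red) parts
  constructor
  · intro h3 G _ _
    refine h1.1 (fun H _ _ _ ho B hB hz d => ?_) G trivial
    exact h2.2 (fun E _ _ G _ hc => (dadeInv_iff red G).1 (h3 E G hc)) H ho B hB hz d
  · intro h3 E _ _ G _ hc
    refine (dadeInv_iff red G).2 (h2.1 (fun H _ _ ho B hB hz d => ?_) E G hc)
    exact h1.2 (fun G _ _ _ => h3 G) H trivial ho B hB hz d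

end Pool.Agent.U259.GF
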