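import Pool.Agent.U259.DP.Gal
import Pool.Agent.U259.UB.Cov
import Pool.Agent.N20.DI.Fin

/-!
# Characters fixed by field automorphisms, modulo a prime
-/

set_option autoImplicit false
set_option linter.unusedSectionVars false

open scoped Classical BigOperators

noncomputable section

namespace Pool.Agent.U259.GF

open Pool.Agent.Y63.NV
open Pool.Agent.Y63.KR (alternatingSum chainSetoid chainStabilizer)
open Pool.Agent.Y63.AWC (IsIrreducibleCharacter)
open Pool.Agent.N85.WM.Wpi (toIrr ofIrr)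
open Pool.Agent.N20.DI (HasDef Dg)
open Pool.Agent.N78.DIBL (nP)
open Pool.Agent.Y930.NV (om R om_int ind Cf Cf_ind ind_cast)
open Pool.Agent.U259.DP (Fixes mem_adjoin val_mem redC_sigma)

/-- the elements of `Γ` fix the roots of unity of order prime to `p`, and act on the roots of unity
as a `q`-group -/
structure Adm (p q : ℕ) (Γ : Subgroup (RingAut ℂ)) : Prop where
  reg : ∀ σ ∈ Γ, ∀ m : ℕ, ¬ p ∣ m → ∀ z : ℂ, z ^ m = 1 → σ z = z
  pow : ∀ n : ℕ, n ≠ 0 → ∃ k : ℕ, ∀ σ ∈ Γ, ∀ z : ℂ, z ^ n = 1 → (σ ^ q ^ k : RingAut ℂ) z = z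

section vals

variable {J : Type} [Group J] [Finite J]

/-- automorphisms which fix the roots of unity fix the character values -/
theorem val_fix {χ : J → ℂ} (hχ : IsIrreducibleCharacter χ) {σ : RingAut ℂ}
    (hσ : ∀ z : ℂ, z ^ Nat.card J = 1 → σ z = z) (g : J) : σ (χ g) = χ g := by
  obtain ⟨V, _, _, _, ρ, hr, rfl⟩ := toIrr hχ
  have hne : Nat.card J ≠ 0 := Nat.card_pos.ne'
  have hζ : IsPrimitiveRoot (Complex.exp (2 * Real.pi * Complex.I / (Nat.card J : ℕ)))
      (Nat.card J) := Complex.isPrimitiveRoot_exp _ hne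
  obtain ⟨c, hc⟩ := Pool.Agent.Q99.CT.char_expand ρ g Nat.card_pos pow_card_eq_one' hζ
  have h1 := hc 1
  rw [pow_one] at h1
  rw [h1, map_sum]
  refine Finset.sum_congr rfl fun i _ => ?_
  rw [map_mul, map_natCast, map_pow, hσ _ hζ.pow_eq_one]

variable {p : ℕ} [hp : Fact p.Prime] {F : Type} [Field F] [CharP F p]
  (red : integralClosure ℤ ℂ →+* F)

theorem irr_sig {χ : J → ℂ} (hχ : IsIrreducibleCharacter χ) (σ : RingAut ℂ) :
    IsIrreducibleCharacter (fun x => σ (χ x)) :=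
  ofIrr (Pool.Agent.Q90.WR.irr_gal σ (toIrr hχ))

theorem R_sigma {n : ℕ} (hJ : Nat.card J ∣ n) {σ : RingAut ℂ} (hσ : Fixes p n σ) {χ : J → ℂ}
    (hχ : IsIrreducibleCharacter χ) [Fintype J] {f : J → ℤ} (hf : Cf f) :
    R red (fun x => σ (χ x)) f = R red χ f := by
  have hne := hσ.ne
  have _n : NeZero n := ⟨hne⟩
  have hm : n / p ^ n.factorization p ≠ 0 := by
    have := Nat.ordCompl_pos p hne
    omega
  have hcop : (p ^ n.factorization p).Coprime (n / p ^ n.factorization p) :=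
    (Nat.coprime_ordCompl hp.out hne).pow_left _
  have hmul : p ^ n.factorization p * (n / p ^ n.factorization p) = n :=
    Nat.ordProj_mul_ordCompl_eq_self n p
  have hζ : IsPrimitiveRoot (Complex.exp (2 * Real.pi * Complex.I / n)) n :=
    Complex.isPrimitiveRoot_exp n hne
  have h1 : om (fun x => σ (χ x)) (fun x => (f x : ℂ)) = σ (om χ (fun x => (f x : ℂ))) := by
    unfold om
    rw [map_div₀, map_sum]
    congr 1
    refine Finset.sum_congr rfl fun x _ => ?_
    rw [map_mul, map_intCast]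
  have h2 : om χ (fun x => (f x : ℂ)) ∈
      IntermediateField.adjoin ℚ {Complex.exp (2 * Real.pi * Complex.I / n)} := by
    unfold om
    refine div_mem (sum_mem fun x _ => mul_mem (intCast_mem _ _) ?_) ?_
    · exact val_mem (toIrr hχ) (Nat.pos_of_ne_zero hne) hJ hζ x
    · exact val_mem (toIrr hχ) (Nat.pos_of_ne_zero hne) hJ hζ 1
  have h3 := mem_adjoin hζ h2 (om_int hχ hf)
  have hζ' : IsPrimitiveRoot (Complex.exp (2 * Real.pi * Complex.I / n))
      (p ^ n.factorization p * (n / p ^ n.factorization p)) := by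
    rw [hmul]
    exact hζ
  unfold R
  rw [h1]
  exact (redC_sigma red hm hcop hσ.fix hζ' h3).2

theorem cv_sigma {n : ℕ} (hJ : Nat.card J ∣ n) {σ : RingAut ℂ} (hσ : Fixes p n σ) {χ : J → ℂ}
    (hχ : IsIrreducibleCharacter χ) (f : J → F) :
    centralValue red (fun x => σ (χ x)) f = centralValue red χ f := by
  have _f : Fintype J := Fintype.ofFinite J
  rw [Pool.Agent.U259.UB.cv_fs red hχ, Pool.Agent.U259.UB.cv_fs red (irr_sig hχ σ)]
  refine finsum_congr fun C => ?_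
  rw [R_sigma red hJ hσ hχ (Cf_ind ℤ C)]

omit [Finite J] hp in
theorem def_sigma {σ : RingAut ℂ} {d : ℕ} {χ : J → ℂ} (h : HasDef p d χ) :
    HasDef p d (fun x => σ (χ x)) := by
  obtain ⟨n, h1, h2⟩ := h
  refine ⟨n, ?_, h2⟩
  change σ (χ 1) = _
  rw [h1, map_natCast]

end vals

section count

variable {p q : ℕ} [hp : Fact p.Prime] [hq : Fact q.Prime] {F : Type} [Field F] [CharP F p]
  (red : integralClosure ℤ ℂ →+* F) {G : Type} [Group G] [Finite G]

theorem Adm.fixes {Γ : Subgroup (RingAut ℂ)} (h : Adm p q Γ) {σ : RingAut ℂ} (hσ : σ ∈ Γ) :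
    Fixes p (Nat.card G) σ :=
  ⟨Nat.card_pos.ne', h.reg σ hσ _ (Nat.not_dvd_ordCompl hp.out Nat.card_pos.ne')⟩

/-- the characters -/
def Om (p : ℕ) (d : ℕ) (B : (G → F) → F) (H : Subgroup G) : Type :=
  {χ : H → ℂ // IsIrreducibleCharacter χ ∧ HasDef p d χ ∧
    ∀ f : G → F, IsClassFun f → centralValue red χ (fun x => f x) = B f}

/-- the number of the characters fixed by `Γ` -/
def nG (Γ : Subgroup (RingAut ℂ)) (p : ℕ) (d : ℕ) (B : (G → F) → F) (H : Subgroup G) : ℕ :=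
  Nat.card {χ : H → ℂ // IsIrreducibleCharacter χ ∧ HasDef p d χ ∧
    (∀ f : G → F, IsClassFun f → centralValue red χ (fun x => f x) = B f) ∧
      ∀ σ ∈ Γ, ∀ x, σ (χ x) = χ x}

/-- the action -/
@[instance_reducible] def act {Γ : Subgroup (RingAut ℂ)} (h : Adm p q Γ) (d : ℕ) (B : (G → F) → F) (H : Subgroup G) :
    MulAction Γ (Om red p d B H) where
  smul σ χ := ⟨fun x => σ.1 (χ.1 x), irr_sig χ.2.1 _, def_sigma χ.2.2.1, fun f hf => by
    beta_reduce
    rw [cv_sigma (n := Nat.card G) red (Subgroup.card_subgroup_dvd_card H) (h.fixes σ.2) χ.2.1]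
    exact χ.2.2.2 f hf⟩
  one_smul χ := rfl
  mul_smul σ τ χ := rfl

theorem fin_Om (d : ℕ) (B : (G → F) → F) (H : Subgroup G) : Finite (Om red p d B H) :=
  ((Pool.Agent.Y914.NV.irr ℂ H).1.subset fun _ h => h.1).to_subtype

/-- **the number of the fixed characters** -/
theorem card_fixed {Γ : Subgroup (RingAut ℂ)} (h : Adm p q Γ) (d : ℕ) (B : (G → F) → F)
    (H : Subgroup G) :
    nP red p d (fun b => Pool.Agent.N85.WM.BEq b B) H ≡ nG red Γ p d B H [MOD q] := by
  let _a := act red h d B H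
  have _i := fin_Om (p := p) red d B H
  let Γ' := (MulAction.toPermHom Γ (Om red p d B H)).range
  have hG : IsPGroup q Γ' := by
    rintro ⟨_, σ, rfl⟩
    obtain ⟨k, hk⟩ := h.pow (Nat.card H) Nat.card_pos.ne'
    refine ⟨k, Subtype.ext ?_⟩
    rw [Subgroup.coe_pow, Subgroup.coe_one, ← map_pow]
    apply Equiv.ext
    intro χ
    apply Subtype.ext
    funext x
    change (σ ^ q ^ k).1 (χ.1 x) = χ.1 x
    exact val_fix χ.2.1 (hk σ.1 σ.2) x
  have h1 := hG.card_modEq_card_fixedPoints (Om red p d B H)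
  have h2 : Nat.card (MulAction.fixedPoints Γ' (Om red p d B H)) = nG red Γ p d B H := by
    unfold nG
    refine Nat.card_congr
      { toFun := fun χ => ⟨χ.1.1, χ.1.2.1, χ.1.2.2.1, χ.1.2.2.2, fun σ hσ x => ?_⟩
        invFun := fun χ => ⟨⟨χ.1, χ.2.1, χ.2.2.1, χ.2.2.2.1⟩, ?_⟩
        left_inv := fun χ => rfl
        right_inv := fun χ => rfl }
    · have h3 := χ.2 ⟨MulAction.toPermHom Γ (Om red p d B H) ⟨σ, hσ⟩, ⟨⟨σ, hσ⟩, rfl⟩⟩
      exact congrFun (congrArg Subtype.val h3) x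
    · rintro ⟨_, σ, rfl⟩
      apply Subtype.ext
      funext x
      exact χ.2.2.2.2 σ.1 σ.2 x
  rw [h2] at h1
  exact h1

/-- the alternating sum of the numbers of fixed characters -/
def SG (Γ : Subgroup (RingAut ℂ)) (p : ℕ) (d : ℕ) (B : (G → F) → F) : ℤ :=
  alternatingSum p G (fun H => (nG red Γ p d B H : ℤ))

theorem sum_fixed {Γ : Subgroup (RingAut ℂ)} (h : Adm p q Γ) (d : ℕ) (B : (G → F) → F) :
    (q : ℤ) ∣ Pool.Agent.U259.WD.SBd p red d B - SG red Γ p d B := by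
  have _i : Fintype (Quotient (chainSetoid p G)) := Fintype.ofFinite _
  unfold Pool.Agent.U259.WD.SBd SG alternatingSum
  rw [finsum_eq_sum_of_fintype, finsum_eq_sum_of_fintype, ← Finset.sum_sub_distrib]
  refine Finset.dvd_sum fun c _ => ?_
  rw [← mul_sub]
  refine Dvd.dvd.mul_left ?_ _
  exact (Int.natCast_modEq_iff.2 (card_fixed red h d B (chainStabilizer c.out.1))).symm.dvd

/-- **divisibility** -/
theorem dvd_iff {Γ : Subgroup (RingAut ℂ)} (h : Adm p q Γ) (d : ℕ) (B : (G → F) → F) :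
    (q : ℤ) ∣ Pool.Agent.U259.WD.SBd p red d B ↔ (q : ℤ) ∣ SG red Γ p d B := by
  have h1 := sum_fixed (q := q) red h d B
  constructor
  · intro h2
    have := dvd_sub h2 h1
    rwa [sub_sub_cancel] at this
  · intro h2
    have := dvd_add h1 h2
    rwa [sub_add_cancel] at this

end count

end Pool.Agent.U259.GF

namespace Pool.Agent.U259.GF

open Pool.Agent.Y63.NV
open Pool.Agent.Y63.KR (alternatingSum chainSetoid chainStabilizer)
open Pool.Agent.Y63.AWC (IsIrreducibleCharacter)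
open Pool.Agent.N20.DI (HasDef Dg Kd)
open Pool.Agent.N85.WM (Wr wrF)

section gen

variable {p q : ℕ} [hp : Fact p.Prime] [hq : Fact q.Prime]

/-- the action on the characters with a stable property -/
@[instance_reducible] def act' {J : Type} [Group J] [Finite J] {Γ : Subgroup (RingAut ℂ)}
    {V : (J → ℂ) → Prop} (hV : ∀ σ ∈ Γ, ∀ χ : J → ℂ, IsIrreducibleCharacter χ → V χ →
      V fun x => σ (χ x)) :
    MulAction Γ {χ : J → ℂ // IsIrreducibleCharacter χ ∧ V χ} where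
  smul σ χ := ⟨fun x => σ.1 (χ.1 x), irr_sig χ.2.1 _, hV σ.1 σ.2 χ.1 χ.2.1 χ.2.2⟩
  one_smul χ := rfl
  mul_smul σ τ χ := rfl

/-- **the number of the fixed characters with a stable property** -/
theorem card_gen {J : Type} [Group J] [Finite J] {Γ : Subgroup (RingAut ℂ)} (h : Adm p q Γ)
    {V : (J → ℂ) → Prop} (hV : ∀ σ ∈ Γ, ∀ χ : J → ℂ, IsIrreducibleCharacter χ → V χ →
      V fun x => σ (χ x)) :
    Nat.card {χ : J → ℂ // IsIrreducibleCharacter χ ∧ V χ} ≡
      Nat.card {χ : J → ℂ // IsIrreducibleCharacter χ ∧ V χ ∧ ∀ σ ∈ Γ, ∀ x, σ (χ x) = χ x}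
        [MOD q] := by
  let _a := act' hV
  have _i : Finite {χ : J → ℂ // IsIrreducibleCharacter χ ∧ V χ} :=
    ((Pool.Agent.Y914.NV.irr ℂ J).1.subset fun _ h => h.1).to_subtype
  let Γ' := (MulAction.toPermHom Γ {χ : J → ℂ // IsIrreducibleCharacter χ ∧ V χ}).range
  have hG : IsPGroup q Γ' := by
    rintro ⟨_, σ, rfl⟩
    obtain ⟨k, hk⟩ := h.pow (Nat.card J) Nat.card_pos.ne'
    refine ⟨k, Subtype.ext ?_⟩
    rw [Subgroup.coe_pow, Subgroup.coe_one, ← map_pow]
    apply Equiv.ext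
    intro χ
    apply Subtype.ext
    funext x
    change (σ ^ q ^ k).1 (χ.1 x) = χ.1 x
    exact val_fix χ.2.1 (hk σ.1 σ.2) x
  have h1 := hG.card_modEq_card_fixedPoints {χ : J → ℂ // IsIrreducibleCharacter χ ∧ V χ}
  have h2 : Nat.card (MulAction.fixedPoints Γ' {χ : J → ℂ // IsIrreducibleCharacter χ ∧ V χ}) =
      Nat.card {χ : J → ℂ // IsIrreducibleCharacter χ ∧ V χ ∧ ∀ σ ∈ Γ, ∀ x, σ (χ x) = χ x} := by
    refine Nat.card_congr
      { toFun := fun χ => ⟨χ.1.1, χ.1.2.1, χ.1.2.2, fun σ hσ x => ?_⟩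
        invFun := fun χ => ⟨⟨χ.1, χ.2.1, χ.2.2.1⟩, ?_⟩
        left_inv := fun χ => rfl
        right_inv := fun χ => rfl }
    · have h3 := χ.2 ⟨MulAction.toPermHom Γ {χ : J → ℂ // IsIrreducibleCharacter χ ∧ V χ} ⟨σ, hσ⟩,
        ⟨⟨σ, hσ⟩, rfl⟩⟩
      exact congrFun (congrArg Subtype.val h3) x
    · rintro ⟨_, σ, rfl⟩
      apply Subtype.ext
      funext x
      exact χ.2.2.2 σ.1 σ.2 x
  rw [h2] at h1
  exact h1

variable {F : Type} [Field F] [CharP F p] (red : integralClosure ℤ ℂ →+* F)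

/-- the number of the fixed characters of defect `d` over `e` -/
def nE (Γ : Subgroup (RingAut ℂ)) (p : ℕ) (d : ℕ) {J : Type} [Group J] (e : J → F) : ℕ :=
  Nat.card {χ : J → ℂ // IsIrreducibleCharacter χ ∧ HasDef p d χ ∧ centralValue red χ e = 1 ∧
    ∀ σ ∈ Γ, ∀ x, σ (χ x) = χ x}

theorem card_nE {J : Type} [Group J] [Finite J] {Γ : Subgroup (RingAut ℂ)} (h : Adm p q Γ)
    (d : ℕ) (e : J → F) : Kd p red d e 1 ≡ nE red Γ p d e [MOD q] := by
  have h1 := card_gen (q := q) h (V := fun χ : J → ℂ => HasDef p d χ ∧ centralValue red χ e = 1)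
    (fun σ hσ χ hχ hv => ⟨def_sigma hv.1, by
      rw [cv_sigma (n := Nat.card J) red dvd_rfl (h.fixes hσ) hχ]
      exact hv.2⟩)
  have h2 : Nat.card {χ : J → ℂ // IsIrreducibleCharacter χ ∧ (HasDef p d χ ∧
      centralValue red χ e = 1) ∧ ∀ σ ∈ Γ, ∀ x, σ (χ x) = χ x} = nE red Γ p d e := by
    unfold nE
    refine Nat.card_congr (Equiv.subtypeEquivRight fun χ => ?_)
    rw [and_assoc]
  rw [h2] at h1
  exact h1

/-- the alternating sum of the numbers of the fixed characters over `e` -/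
def SE (Γ : Subgroup (RingAut ℂ)) (p : ℕ) (d : ℕ) (G : Type) [Group G] (e : G → F) : ℤ :=
  alternatingSum p G (fun H => (nE red Γ p d (fun x : H => e x) : ℤ))

theorem dvd_SE {G : Type} [Group G] [Finite G] {Γ : Subgroup (RingAut ℂ)} (h : Adm p q Γ)
    (d : ℕ) (e : G → F) :
    (q : ℤ) ∣ Pool.Agent.U259.WD.Sd p red d G e 1 ↔ (q : ℤ) ∣ SE red Γ p d G e := by
  have _i : Fintype (Quotient (chainSetoid p G)) := Fintype.ofFinite _
  have h1 : (q : ℤ) ∣ Pool.Agent.U259.WD.Sd p red d G e 1 - SE red Γ p d G e := by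
    unfold Pool.Agent.U259.WD.Sd SE alternatingSum
    rw [finsum_eq_sum_of_fintype, finsum_eq_sum_of_fintype, ← Finset.sum_sub_distrib]
    refine Finset.dvd_sum fun c _ => ?_
    rw [← mul_sub]
    refine Dvd.dvd.mul_left ?_ _
    exact (Int.natCast_modEq_iff.2 (card_nE (q := q) red h d _)).symm.dvd
  constructor
  · intro h2
    have := dvd_sub h2 h1
    rwa [sub_sub_cancel] at this
  · intro h2
    have := dvd_add h1 h2
    rwa [sub_add_cancel] at this

/-- the sum for the `j`-th iterated wreath product -/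
def SEN (Γ : Subgroup (RingAut ℂ)) (p q : ℕ) [NeZero q] (d : ℕ) :
    ℕ → (G : Type) → [Group G] → (G → F) → ℤ
  | 0, G, _, e => SE red Γ p d G e
  | j + 1, G, _, e => SEN Γ p q d j (Wr q G) (wrF q e)

theorem dvd_SEN {Γ : Subgroup (RingAut ℂ)} (h : Adm p q Γ) (d j : ℕ) :
    ∀ (G : Type) [Group G] [Finite G] (e : G → F),
    (q : ℤ) ∣ Pool.Agent.U259.WD.SdN p q red d j G e ↔ (q : ℤ) ∣ SEN red Γ p q d j G e := by
  induction j with
  | zero =>
    intro G _ _ e
    exact dvd_SE red h d e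
  | succ j ih =>
    intro G _ _ e
    exact ih (Wr q G) (wrF q e)

end gen

end Pool.Agent.U259.GF
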